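import Pool.Agent.helper22.DL.SpecE1

/-! Module dl:EFC (helper98): the method of continuity. -/

set_option autoImplicit false

namespace Pool.Agent.DL

open Set Filter Topology

theorem EFC_surj (Y : Type) [NormedAddCommGroup Y] [NormedSpace ℝ Y] [CompleteSpace Y]
    (A : Y →L[ℝ] Y) (hA : IsCompactOperator A) (h : ∀ v, A v = v → v = 0) (w : Y) :
    ∃ v, v - A v = w := by
  rcases hA.hasEigenvalue_or_mem_resolventSet (one_ne_zero : (1 : ℝ) ≠ 0) with h1 | h1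
  · exfalso
    obtain ⟨v, hv⟩ := h1.exists_hasEigenvector
    have h2 := hv.apply_eq_smul
    rw [one_smul] at h2
    exact hv.2 (h v h2)
  · rw [spectrum.mem_resolventSet_iff, ContinuousLinearMap.isUnit_iff_bijective] at h1
    obtain ⟨v, hv⟩ := h1.2 w
    refine ⟨v, ?_⟩
    rw [← hv]
    simp

theorem EFC : EFC_stmt := by
  intro Y Z _ _ _ _ _ T N hT hN hb ⟨M, hM⟩ hinj ⟨y₀, hy₀⟩
  obtain ⟨M', hM'⟩ := hb M
  set S : Set ℝ := {τ | ∃ y, T (N (τ, y)) = y} with hS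
  obtain ⟨K, hK, hKs⟩ := hT.image_closedBall_subset_compact (f := (T : Z →ₗ[ℝ] Y)) M'
  have hcl : IsClosed (S ∩ Icc (0 : ℝ) 1) := by
    have e : S ∩ Icc (0 : ℝ) 1 =
        Prod.fst '' ((Icc (0 : ℝ) 1 ×ˢ K) ∩ {p : ℝ × Y | T (N p) = p.2}) := by
      ext τ
      constructor
      · rintro ⟨⟨y, hy⟩, hτ⟩
        exact ⟨(τ, y), ⟨⟨hτ, hKs ⟨N (τ, y), mem_closedBall_zero_iff.2
          (hM' τ hτ y (hM τ hτ y hy)), hy⟩⟩, hy⟩, rfl⟩
      · rintro ⟨⟨τ, y⟩, ⟨⟨h1, h2⟩, h3⟩, rfl⟩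
        exact ⟨⟨y, h3⟩, h1⟩
    rw [e]
    exact (((isCompact_Icc.prod hK).inter_right (isClosed_eq
      (T.continuous.comp hN.continuous) continuous_snd)).image continuous_fst).isClosed
  have hsub : Icc (0 : ℝ) 1 ⊆ S := by
    refine hcl.Icc_subset_of_forall_exists_gt ⟨y₀, hy₀⟩ ?_
    rintro τ ⟨⟨y, hy⟩, hτ⟩ τ' hτ'
    set f' : ℝ × Y →L[ℝ] ℝ × Y := (ContinuousLinearMap.fst ℝ ℝ Y).prod
      (ContinuousLinearMap.snd ℝ ℝ Y - T.comp (fderiv ℝ N (τ, y))) with hf'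
    have hs : HasStrictFDerivAt (fun p : ℝ × Y => (p.1, p.2 - T (N p))) f' (τ, y) := by
      refine hasStrictFDerivAt_fst.prodMk (hasStrictFDerivAt_snd.sub ?_)
      exact T.hasStrictFDerivAt.comp _ (hN.contDiffAt.hasStrictFDerivAt (by simp))
    have hr : f'.range = ⊤ := by
      rw [LinearMap.range_eq_top]
      rintro ⟨s, w⟩
      obtain ⟨v, hv⟩ := EFC_surj Y (T.comp ((fderiv ℝ N (τ, y)).comp
        (ContinuousLinearMap.inr ℝ ℝ Y))) (hT.comp_clm _)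
        (fun v hv => hinj τ (Ico_subset_Icc_self hτ) y v hy hv)
        (w + T (fderiv ℝ N (τ, y) (s, 0)))
      refine ⟨(s, v), ?_⟩
      show (s, v - T (fderiv ℝ N (τ, y) (s, v))) = (s, w)
      have e1 : ((s, v) : ℝ × Y) = (s, 0) + (0, v) := by simp
      have e2 : v - T (fderiv ℝ N (τ, y) (0, v)) = w + T (fderiv ℝ N (τ, y) (s, 0)) := hv
      rw [e1, map_add, map_add]
      congr 1
      rw [← sub_sub, sub_right_comm, e2, add_sub_cancel_right]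
    have hmap := hs.map_nhds_eq_of_surj hr
    have h1 : range (fun p : ℝ × Y => (p.1, p.2 - T (N p))) ∈ 𝓝 ((τ, y - T (N (τ, y))) : ℝ × Y) := by
      rw [← hmap]
      exact range_mem_map
    rw [hy, sub_self] at h1
    have h2 : Tendsto (fun t : ℝ => ((t, 0) : ℝ × Y)) (𝓝 τ) (𝓝 (τ, 0)) :=
      (Continuous.prodMk continuous_id continuous_const).tendsto τ
    have h3 : ∀ᶠ t in 𝓝[>] τ, ((t, 0) : ℝ × Y) ∈ range (fun p : ℝ × Y => (p.1, p.2 - T (N p))) :=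
      (h2.eventually h1).filter_mono nhdsWithin_le_nhds
    have h4 : ∀ᶠ t in 𝓝[>] τ, t ∈ Ioc τ τ' := Ioc_mem_nhdsGT hτ'
    obtain ⟨t, ht1, ht2⟩ := (h3.and h4).exists
    obtain ⟨⟨t', z⟩, hz⟩ := ht1
    rw [Prod.mk.injEq] at hz
    obtain ⟨hz1, hz2⟩ := hz
    dsimp only at hz1 hz2
    subst hz1
    exact ⟨t', ⟨z, (sub_eq_zero.1 hz2).symm⟩, ht2⟩
  exact hsub (right_mem_Icc.2 zero_le_one)

end Pool.Agent.DL
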