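import Pool.Agent.helper67.DL.SpecG
import Pool.Agent.helper89.DL.WI

/-! Module dl:GE (helper98): gauge transformations, sign, scalar, dual for Hitchin's equation. -/

namespace Pool.Agent.DL

open Matrix Complex
open scoped ComplexOrder

theorem GE_nonsing {n : ℕ} {H : Matrix (Fin n) (Fin n) ℂ} (h : IsUnit H.det) :
    H * H⁻¹ = 1 ∧ H⁻¹ * H = 1 :=
  ⟨Matrix.mul_nonsing_inv _ h, Matrix.nonsing_inv_mul _ h⟩

theorem GE_posdet {n : ℕ} {H : Matrix (Fin n) (Fin n) ℂ} (hH : H.PosDef) : IsUnit H.det :=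
  (Matrix.isUnit_iff_isUnit_det _).1 hH.isUnit

/-- `∂̄` of a holomorphic matrix function. -/
theorem GE_holo {n : ℕ} {Ω : Set ℂ} {G : ℂ → Matrix (Fin n) (Fin n) ℂ} (hΩ : IsOpen Ω)
    (hG : HM Ω G) {z : ℂ} (hz : z ∈ Ω) : WImd 1 G z = 0 := by
  ext a b
  simp only [WImd, Matrix.of_apply, Matrix.zero_apply]
  rw [WIdd_holo 1 ((hG a b).differentiableAt (hΩ.mem_nhds hz))]
  simp

/-- `∂̄∂` of a holomorphic matrix function. -/
theorem GE_holo2 {n : ℕ} {Ω : Set ℂ} {G : ℂ → Matrix (Fin n) (Fin n) ℂ} (hΩ : IsOpen Ω)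
    (hG : HM Ω G) : HM Ω (WImd (-1) G) := by
  intro a b
  have h1 : DifferentiableOn ℂ (deriv fun w => G w a b) Ω := (hG a b).deriv hΩ
  refine h1.congr fun z hz => ?_
  simp only [WImd, Matrix.of_apply]
  rw [WIdd_holo (-1) ((hG a b).differentiableAt (hΩ.mem_nhds hz))]
  norm_num

theorem GE_transpose {m n : ℕ} (ε : ℂ) (F : ℂ → Matrix (Fin m) (Fin n) ℂ) (z : ℂ) :
    WImd ε (fun w => (F w)ᵀ) z = (WImd ε F z)ᵀ := by
  ext a b
  simp only [WImd, Matrix.of_apply, Matrix.transpose_apply]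

theorem GE_neg {m n : ℕ} (ε : ℂ) (F : ℂ → Matrix (Fin m) (Fin n) ℂ) {z : ℂ} (hF : WID F z) :
    WImd ε (fun w => -F w) z = -WImd ε F z := by
  have h0 : WID (fun _ : ℂ => (0 : Matrix (Fin m) (Fin n) ℂ)) z :=
    fun a b => differentiableAt_const _
  have h := WImd_sub (ε := ε) h0 hF
  rw [WImd_const] at h
  simpa using h

theorem GE_eq {n : ℕ} {Ω : Set ℂ} {A H : ℂ → Matrix (Fin n) (Fin n) ℂ} {W : ℂ → ℝ}
    (h : LH n Ω A W H) {z : ℂ} (hz : z ∈ Ω) :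
    WImd 1 (fun w => (H w)⁻¹ * WImd (-1) H w) z =
      ((W z : ℝ) : ℂ) • (A z * adj (H z) (A z) - adj (H z) (A z) * A z) := by
  have h1 := h.eq z hz
  rw [WI_mdzb] at h1
  simp only [WI_mdz] at h1
  exact h1

theorem GE_C {n : ℕ} {Ω : Set ℂ} {A H : ℂ → Matrix (Fin n) (Fin n) ℂ} {W : ℂ → ℝ}
    (h : LH n Ω A W H) : WIC 2 Ω H := fun a b => by exact_mod_cast h.smooth a b

/-- Gauge transformations. -/
theorem GE_gauge {n : ℕ} {Ω : Set ℂ} {A H G : ℂ → Matrix (Fin n) (Fin n) ℂ} {W : ℂ → ℝ}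
    (hΩ : IsOpen Ω) (h : LH n Ω A W H) (hG : HM Ω G) (hu : ∀ z ∈ Ω, IsUnit (G z).det) :
    LH n Ω (fun z => (G z)⁻¹ * A z * G z) W (fun z => (G z)ᴴ * H z * G z) := by
  have hHu : ∀ z ∈ Ω, IsUnit (H z).det := fun z hz => GE_posdet (h.pos z hz)
  have cH : WIC 2 Ω H := GE_C h
  have cG : WIC 2 Ω G := WIC_holo hΩ hG 2
  have cG1 : WIC 1 Ω G := WIC_holo hΩ hG 1
  have cH1 : WIC 1 Ω H := fun a b => (cH a b).of_le (by norm_num)
  have cX : WIC 1 Ω (fun w => (H w)⁻¹ * WImd (-1) H w) :=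
    WIC_mul (WIC_inv cH1 fun z hz => (hHu z hz).ne_zero) (WIC_md (-1) hΩ cH)
  have cGi : WIC 1 Ω (fun w => (G w)⁻¹) := WIC_inv cG1 fun z hz => (hu z hz).ne_zero
  have cG' : WIC 1 Ω (WImd (-1) G) := WIC_md (-1) hΩ cG
  refine ⟨fun z hz => ?_, fun a b => ?_, fun z hz => ?_⟩
  · refine (h.pos z hz).conjTranspose_mul_mul_same ?_
    exact Matrix.mulVec_injective_of_isUnit ((Matrix.isUnit_iff_isUnit_det _).2 (hu z hz))
  · have := WIC_mul (WIC_mul (WIC_star cG) cH) cG a b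
    exact_mod_cast this
  · -- the connection form
    have key : ∀ w ∈ Ω, ((G w)ᴴ * H w * G w)⁻¹ * mdz (fun z => (G z)ᴴ * H z * G z) w =
        (G w)⁻¹ * ((H w)⁻¹ * WImd (-1) H w) * G w + (G w)⁻¹ * WImd (-1) G w := by
      intro w hw
      have dG : WID G w := WIC_at hΩ two_ne_zero cG hw
      have dH : WID H w := WIC_at hΩ two_ne_zero cH hw
      have e1 : WImd (-1) (fun z => (G z)ᴴ) w = 0 := by
        have e := WImd_star (-1) dG
        rw [neg_neg, ofReal_neg, ofReal_one, GE_holo hΩ hG hw, conjTranspose_zero] at e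
        exact e
      have e2 : WImd (-1) (fun z => (G z)ᴴ * H z * G z) w =
          (G w)ᴴ * WImd (-1) H w * G w + (G w)ᴴ * H w * WImd (-1) G w := by
        rw [WImd_mul (WID_mul (WID_star dG) dH) dG, WImd_mul (WID_star dG) dH, e1, zero_mul,
          zero_add]
      rw [WI_mdz, e2, Matrix.mul_inv_rev, Matrix.mul_inv_rev]
      have g1 := (GE_nonsing (hu w hw)).1
      have g2 : ((G w)ᴴ)⁻¹ * (G w)ᴴ = 1 := by
        refine (GE_nonsing ?_).2
        rw [det_conjTranspose]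
        exact (hu w hw).star
      have g3 := (GE_nonsing (hHu w hw)).2
      calc (G w)⁻¹ * ((H w)⁻¹ * ((G w)ᴴ)⁻¹) *
            ((G w)ᴴ * WImd (-1) H w * G w + (G w)ᴴ * H w * WImd (-1) G w)
          = (G w)⁻¹ * (H w)⁻¹ * (((G w)ᴴ)⁻¹ * (G w)ᴴ) * WImd (-1) H w * G w +
            (G w)⁻¹ * ((H w)⁻¹ * (((G w)ᴴ)⁻¹ * (G w)ᴴ) * H w) * WImd (-1) G w := by
            noncomm_ring
        _ = _ := by
            rw [g2, mul_one, mul_one, g3, mul_one]
            noncomm_ring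
    have ev : (fun w => ((G w)ᴴ * H w * G w)⁻¹ * mdz (fun z => (G z)ᴴ * H z * G z) w) =ᶠ[nhds z]
        fun w => (G w)⁻¹ * ((H w)⁻¹ * WImd (-1) H w) * G w + (G w)⁻¹ * WImd (-1) G w :=
      Filter.eventually_of_mem (hΩ.mem_nhds hz) key
    have dG : WID G z := WIC_at hΩ two_ne_zero cG hz
    have dGi : WID (fun w => (G w)⁻¹) z := WIC_at hΩ one_ne_zero cGi hz
    have dX : WID (fun w => (H w)⁻¹ * WImd (-1) H w) z := WIC_at hΩ one_ne_zero cX hz
    have dG' : WID (WImd (-1) G) z := WIC_at hΩ one_ne_zero cG' hz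
    have g1 := GE_nonsing (hu z hz)
    have e0 : WImd 1 G z = 0 := GE_holo hΩ hG hz
    have e3 : WImd 1 (fun w => (G w)⁻¹) z = 0 := by
      have ev1 : (fun w => (G w)⁻¹ * G w) =ᶠ[nhds z] fun _ => (1 : Matrix (Fin n) (Fin n) ℂ) :=
        Filter.eventually_of_mem (hΩ.mem_nhds hz) fun w hw => (GE_nonsing (hu w hw)).2
      have e := WImd_congr (ε := 1) ev1
      rw [WImd_mul dGi dG, WImd_const, e0, mul_zero, add_zero] at e
      have e' := congrArg (fun M => M * (G z)⁻¹) e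
      simp only [mul_assoc, zero_mul] at e'
      rw [g1.1, mul_one] at e'
      exact e'
    have e4 : WImd 1 (WImd (-1) G) z = 0 := GE_holo hΩ (GE_holo2 hΩ hG) hz
    rw [WI_mdzb, WImd_congr ev, WImd_add (WID_mul (WID_mul dGi dX) dG) (WID_mul dGi dG'),
      WImd_mul (WID_mul dGi dX) dG, WImd_mul dGi dX, WImd_mul dGi dG', e0, e3, e4, GE_eq h hz]
    have hadj : adj ((G z)ᴴ * H z * G z) ((G z)⁻¹ * A z * G z) =
        (G z)⁻¹ * adj (H z) (A z) * G z := by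
      have g2 : ((G z)ᴴ)⁻¹ * (G z)ᴴ = 1 := by
        refine (GE_nonsing ?_).2
        rw [det_conjTranspose]
        exact (hu z hz).star
      have g4 : ((G z)⁻¹)ᴴ * (G z)ᴴ = 1 := by
        rw [← conjTranspose_mul, g1.1, conjTranspose_one]
      unfold adj
      rw [Matrix.mul_inv_rev, Matrix.mul_inv_rev, conjTranspose_mul, conjTranspose_mul]
      calc (G z)⁻¹ * ((H z)⁻¹ * ((G z)ᴴ)⁻¹) * ((G z)ᴴ * ((A z)ᴴ * ((G z)⁻¹)ᴴ)) *
            ((G z)ᴴ * H z * G z)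
          = (G z)⁻¹ * (H z)⁻¹ * (((G z)ᴴ)⁻¹ * (G z)ᴴ) * (A z)ᴴ * (((G z)⁻¹)ᴴ * (G z)ᴴ) *
            H z * G z := by noncomm_ring
        _ = _ := by
            rw [g2, g4, mul_one, mul_one]
            noncomm_ring
    rw [hadj]
    simp only [zero_mul, zero_add, mul_zero, add_zero, mul_smul_comm, smul_mul_assoc]
    congr 1
    calc (G z)⁻¹ * (A z * adj (H z) (A z) - adj (H z) (A z) * A z) * G z
        = (G z)⁻¹ * A z * 1 * adj (H z) (A z) * G z -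
          (G z)⁻¹ * adj (H z) (A z) * 1 * A z * G z := by noncomm_ring
      _ = (G z)⁻¹ * A z * (G z * (G z)⁻¹) * adj (H z) (A z) * G z -
          (G z)⁻¹ * adj (H z) (A z) * (G z * (G z)⁻¹) * A z * G z := by rw [g1.1]
      _ = _ := by noncomm_ring

/-- The dual. -/
theorem GE_dual {n : ℕ} {Ω : Set ℂ} {A H : ℂ → Matrix (Fin n) (Fin n) ℂ} {W : ℂ → ℝ}
    (hΩ : IsOpen Ω) (h : LH n Ω A W H) :
    LH n Ω (fun z => (A z)ᵀ) W (fun z => ((H z)ᵀ)⁻¹) := by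
  have hHu : ∀ z ∈ Ω, IsUnit (H z).det := fun z hz => GE_posdet (h.pos z hz)
  have hTu : ∀ z ∈ Ω, IsUnit ((H z)ᵀ).det := fun z hz => by rw [det_transpose]; exact hHu z hz
  have cH : WIC 2 Ω H := GE_C h
  have cT : WIC 2 Ω (fun w => (H w)ᵀ) := fun a b => cH b a
  have cK : WIC 2 Ω (fun w => ((H w)ᵀ)⁻¹) := WIC_inv cT fun z hz => (hTu z hz).ne_zero
  have cH1 : WIC 1 Ω H := fun a b => (cH a b).of_le (by norm_num)
  have cX : WIC 1 Ω (fun w => (H w)⁻¹ * WImd (-1) H w) :=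
    WIC_mul (WIC_inv cH1 fun z hz => (hHu z hz).ne_zero) (WIC_md (-1) hΩ cH)
  refine ⟨fun z hz => (h.pos z hz).transpose.inv, fun a b => ?_, fun z hz => ?_⟩
  · exact_mod_cast cK a b
  · have key : ∀ w ∈ Ω, (((H w)ᵀ)⁻¹)⁻¹ * mdz (fun z => ((H z)ᵀ)⁻¹) w =
        -((H w)⁻¹ * WImd (-1) H w)ᵀ := by
      intro w hw
      have dK : WID (fun w => ((H w)ᵀ)⁻¹) w := WIC_at hΩ two_ne_zero cK hw
      have dT : WID (fun w => (H w)ᵀ) w := WIC_at hΩ two_ne_zero cT hw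
      have t1 := GE_nonsing (hTu w hw)
      have ev1 : (fun w => ((H w)ᵀ)⁻¹ * (H w)ᵀ) =ᶠ[nhds w]
          fun _ => (1 : Matrix (Fin n) (Fin n) ℂ) :=
        Filter.eventually_of_mem (hΩ.mem_nhds hw) fun v hv => (GE_nonsing (hTu v hv)).2
      have e := WImd_congr (ε := -1) ev1
      rw [WImd_mul dK dT, WImd_const, GE_transpose] at e
      have e2 : WImd (-1) (fun w => ((H w)ᵀ)⁻¹) w =
          -(((H w)ᵀ)⁻¹ * (WImd (-1) H w)ᵀ * ((H w)ᵀ)⁻¹) := by
        have e' := congrArg (fun M => M * ((H w)ᵀ)⁻¹) (eq_neg_of_add_eq_zero_left e)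
        simp only [mul_assoc, neg_mul] at e'
        rw [t1.1, mul_one] at e'
        rw [e', mul_assoc]
      rw [WI_mdz, e2, Matrix.nonsing_inv_nonsing_inv _ (hTu w hw), transpose_mul,
        Matrix.transpose_nonsing_inv]
      calc (H w)ᵀ * -(((H w)ᵀ)⁻¹ * (WImd (-1) H w)ᵀ * ((H w)ᵀ)⁻¹)
          = -(((H w)ᵀ * ((H w)ᵀ)⁻¹) * (WImd (-1) H w)ᵀ * ((H w)ᵀ)⁻¹) := by noncomm_ring
        _ = _ := by rw [t1.1, one_mul]
    have ev : (fun w => (((H w)ᵀ)⁻¹)⁻¹ * mdz (fun z => ((H z)ᵀ)⁻¹) w) =ᶠ[nhds z]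
        fun w => -((H w)⁻¹ * WImd (-1) H w)ᵀ :=
      Filter.eventually_of_mem (hΩ.mem_nhds hz) key
    have dX : WID (fun w => (H w)⁻¹ * WImd (-1) H w) z := WIC_at hΩ one_ne_zero cX hz
    have dXT : WID (fun w => ((H w)⁻¹ * WImd (-1) H w)ᵀ) z := fun a b => dX b a
    rw [WI_mdzb, WImd_congr ev, GE_neg 1 _ dXT, GE_transpose, GE_eq h hz]
    have hadj : adj (((H z)ᵀ)⁻¹) ((A z)ᵀ) = (adj (H z) (A z))ᵀ := by
      unfold adj
      rw [Matrix.nonsing_inv_nonsing_inv _ (hTu z hz), transpose_mul, transpose_mul,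
        Matrix.transpose_nonsing_inv, mul_assoc]
      rfl
    rw [hadj, ← transpose_mul, ← transpose_mul, ← transpose_sub, transpose_smul, ← smul_neg,
      ← transpose_neg, neg_sub]

/-- **GE.** -/
theorem GE : GE_stmt := by
  intro n Ω A H G W hΩ h hG hu
  refine ⟨GE_gauge hΩ h hG hu, ⟨h.pos, h.smooth, fun z hz => ?_⟩, fun c =>
    ⟨h.pos, h.smooth, fun z hz => ?_⟩, GE_dual hΩ h⟩
  · rw [h.eq z hz]
    have e : adj (H z) (-A z) = -adj (H z) (A z) := by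
      unfold adj
      rw [conjTranspose_neg, mul_neg, neg_mul]
    rw [e]
    simp only [neg_mul, mul_neg, neg_neg]
  · rw [h.eq z hz]
    have g := (GE_nonsing (GE_posdet (h.pos z hz))).2
    have e : adj (H z) (A z + c z • 1) = adj (H z) (A z) + star (c z) • 1 := by
      unfold adj
      rw [conjTranspose_add, conjTranspose_smul, conjTranspose_one, mul_add, add_mul,
        mul_smul_comm, mul_one, smul_mul_assoc, g]
    rw [e]
    congr 1
    simp only [add_mul, mul_add, smul_mul_assoc, mul_smul_comm, one_mul, mul_one, smul_add]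
    rw [smul_comm (c z) (star (c z)) (1 : Matrix (Fin n) (Fin n) ℂ)]
    abel

end Pool.Agent.DL
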