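import Pool.Agent.helper67.DL.SpecL

/-! Module dl:M2 (helper98): the rank one idempotent inequality. -/

namespace Pool.Agent.DL

open Matrix Complex
open scoped ComplexOrder

section adj

variable {n : ℕ} {H : Matrix (Fin n) (Fin n) ℂ} (hH : H.PosDef)

include hH in
theorem M2_inv : H * H⁻¹ = 1 ∧ H⁻¹ * H = 1 := by
  have hu : IsUnit H.det := (Matrix.isUnit_iff_isUnit_det _).1 hH.isUnit
  exact ⟨Matrix.mul_nonsing_inv _ hu, Matrix.nonsing_inv_mul _ hu⟩

include hH in
theorem M2_adj_mul (P Q : Matrix (Fin n) (Fin n) ℂ) : adj H (P * Q) = adj H Q * adj H P := by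
  have h := (M2_inv hH).1
  unfold adj
  rw [conjTranspose_mul]
  calc H⁻¹ * (Qᴴ * Pᴴ) * H = H⁻¹ * Qᴴ * 1 * Pᴴ * H := by simp only [mul_assoc, one_mul]
    _ = H⁻¹ * Qᴴ * (H * H⁻¹) * Pᴴ * H := by rw [h]
    _ = _ := by simp only [mul_assoc]

include hH in
theorem M2_adj_adj (P : Matrix (Fin n) (Fin n) ℂ) : adj H (adj H P) = P := by
  obtain ⟨h1, h2⟩ := M2_inv hH
  have hh : Hᴴ = H := hH.isHermitian
  have hi : (H⁻¹)ᴴ = H⁻¹ := by rw [conjTranspose_nonsing_inv, hh]
  unfold adj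
  rw [conjTranspose_mul, conjTranspose_mul, conjTranspose_conjTranspose, hh, hi]
  calc H⁻¹ * (H * (P * H⁻¹)) * H = (H⁻¹ * H) * P * (H⁻¹ * H) := by simp only [mul_assoc]
    _ = P := by rw [h2, one_mul, mul_one]

theorem M2_adj_sub (P Q : Matrix (Fin n) (Fin n) ℂ) : adj H (P - Q) = adj H P - adj H Q := by
  unfold adj
  rw [conjTranspose_sub, mul_sub, sub_mul]

include hH in
theorem M2_adj_one : adj H 1 = 1 := by
  unfold adj
  rw [conjTranspose_one, mul_one, (M2_inv hH).2]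

include hH in
theorem M2_adj_smul_one (c : ℂ) : adj H (c • (1 : Matrix (Fin n) (Fin n) ℂ)) = star c • 1 := by
  unfold adj
  rw [conjTranspose_smul, conjTranspose_one, mul_smul_comm, mul_one, smul_mul_assoc,
    (M2_inv hH).2]

include hH in
theorem M2_trace_adj (P : Matrix (Fin n) (Fin n) ℂ) : trace (adj H P) = star (trace P) := by
  unfold adj
  rw [trace_mul_comm, ← mul_assoc, (M2_inv hH).1, one_mul, trace_conjTranspose]

theorem M2_nn (P : Matrix (Fin n) (Fin n) ℂ) : nn H P = (trace (adj H P * P)).re := rfl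

end adj

/-- **M2.** -/
theorem M2 (hMN : MN_stmt) : M2_stmt := by
  intro H B G e c lam hH hce hB1 hB2 hG1 hG2
  obtain ⟨nn0, nnz, -, -, nnm, -, -, nna⟩ := hMN 3 H hH
  obtain ⟨Q, hQ⟩ : ∃ Q, Q = vecMulVec e c := ⟨_, rfl⟩
  rw [← hQ] at hB1 hB2 hG1 hG2 ⊢
  -- the adjoint
  obtain ⟨S, hS⟩ : ∃ S, S = adj H Q := ⟨_, rfl⟩
  have hSQ : adj H S = Q := by rw [hS, M2_adj_adj hH]
  have hQQ : Q * Q = Q := by
    rw [hQ, vecMulVec_mul_vecMulVec, hce, one_smul]
  have hSS : S * S = S := by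
    rw [hS, ← M2_adj_mul hH, hQQ]
  have htr : trace Q = 1 := by
    rw [hQ, trace_vecMulVec, dotProduct_comm, hce]
  have htrS : trace S = 1 := by
    rw [hS, M2_trace_adj hH, htr, star_one]
  -- sandwich
  have hsand : ∀ X : Matrix (Fin 3) (Fin 3) ℂ, Q * X * Q = trace (X * Q) • Q := by
    intro X
    rw [hQ, mul_assoc, mul_vecMulVec, vecMulVec_mul_vecMulVec, trace_vecMulVec, dotProduct_comm,
      vecMulVec_smul]
  set μ : ℂ := trace (S * Q) with hμ
  have hreal : star μ = μ := by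
    rw [hμ, ← M2_trace_adj hH, M2_adj_mul hH, hSQ, ← hS]
  have hre : (μ.re : ℂ) = μ := Complex.conj_eq_iff_real.1 hreal |>.elim fun r hr => by
    rw [hr, Complex.ofReal_re]
  have hm : nn H Q = μ.re := by rw [M2_nn, ← hS]
  have hQSQ : Q * S * Q = μ • Q := hsand S
  have hμμ : (μ * μ).re = μ.re * μ.re := by
    rw [← hre, ← Complex.ofReal_mul, Complex.ofReal_re, Complex.ofReal_re]
  -- the first norm
  have e1 : nn H ((1 - S) * Q) = μ.re * μ.re - μ.re := by
    have h1 : adj H ((1 - S) * Q) * ((1 - S) * Q) = μ • (S * Q) - S * Q := by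
      rw [M2_adj_mul hH, M2_adj_sub, M2_adj_one hH, hSQ, ← hS]
      calc S * (1 - Q) * ((1 - S) * Q)
          = S * Q - (S * S) * Q - S * (Q * Q) + S * (Q * S * Q) := by noncomm_ring
        _ = μ • (S * Q) - S * Q := by
            rw [hSS, hQQ, hQSQ, mul_smul_comm]
            abel
    rw [M2_nn, h1, trace_sub, trace_smul, ← hμ, smul_eq_mul, Complex.sub_re, hμμ]
  have e2 : nn H (Q * (1 - S)) = μ.re * μ.re - μ.re := by
    have h1 : adj H (Q * (1 - S)) * (Q * (1 - S)) =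
        S * Q - S * Q * S - Q * S * Q + μ • (Q * S) := by
      rw [M2_adj_mul hH, M2_adj_sub, M2_adj_one hH, hSQ, ← hS]
      calc (1 - Q) * S * (Q * (1 - S))
          = S * Q - S * Q * S - Q * S * Q + (Q * S * Q) * S := by noncomm_ring
        _ = S * Q - S * Q * S - Q * S * Q + μ • (Q * S) := by
            rw [hQSQ, smul_mul_assoc]
    have h2 : trace (S * Q * S) = μ := by
      rw [trace_mul_comm, ← mul_assoc, hSS]
    have h3 : trace (Q * S * Q) = μ := by
      rw [hQSQ, trace_smul, htr, smul_eq_mul, mul_one]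
    have h4 : trace (Q * S) = μ := by rw [trace_mul_comm]
    rw [M2_nn, h1, trace_add, trace_sub, trace_sub, trace_smul, h2, h3, h4, ← hμ, smul_eq_mul,
      Complex.add_re, Complex.sub_re, Complex.sub_re, hμμ]
    ring
  -- the commutator
  obtain ⟨C, hC⟩ : ∃ C, C = B - lam • (1 : Matrix (Fin 3) (Fin 3) ℂ) := ⟨_, rfl⟩
  rw [← hC] at hG1 hG2
  have hCQ : C * Q = 0 := by
    rw [hC, sub_mul, hB1, smul_mul_assoc, one_mul, sub_self]
  have hQC : Q * C = 0 := by
    rw [hC, mul_sub, hB2, mul_smul_comm, mul_one, sub_self]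
  obtain ⟨D, hD⟩ : ∃ D, D = adj H C := ⟨_, rfl⟩
  have hDC : adj H D = C := by rw [hD, M2_adj_adj hH]
  have hDB : adj H B * Q - Q * adj H B = D * Q - Q * D := by
    have h1 : D = adj H B - star lam • 1 := by
      rw [hD, hC, M2_adj_sub, M2_adj_smul_one hH]
    rw [h1, sub_mul, mul_sub, smul_mul_assoc, mul_smul_comm, one_mul, mul_one]
    abel
  have e3 : nn H (D * Q - Q * D) = nn H (D * Q) + nn H (Q * D) := by
    have h1 : adj H (D * Q - Q * D) * (D * Q - Q * D) =
        adj H (D * Q) * (D * Q) + adj H (Q * D) * (Q * D) - S * (C * Q) * D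
          - C * S * D * Q := by
      rw [M2_adj_sub, M2_adj_mul hH, M2_adj_mul hH, hDC, ← hS]
      noncomm_ring
    have h2 : trace (C * S * D * Q) = 0 := by
      rw [trace_mul_comm, ← mul_assoc, ← mul_assoc, hQC, zero_mul, zero_mul, trace_zero]
    rw [M2_nn, M2_nn, M2_nn, h1, hCQ, mul_zero, zero_mul, sub_zero, trace_sub, h2, sub_zero,
      trace_add, Complex.add_re]
  have hGS : adj H G * D = 1 - S := by
    rw [hD, ← M2_adj_mul hH, hG2, M2_adj_sub, M2_adj_one hH, hS]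
  have hSG : D * adj H G = 1 - S := by
    rw [hD, ← M2_adj_mul hH, hG1, M2_adj_sub, M2_adj_one hH, hS]
  have f1 : μ.re * μ.re - μ.re ≤ nn H G * nn H (D * Q) := by
    rw [← e1, ← hGS, mul_assoc, ← nna G]
    exact nnm _ _
  have f2 : μ.re * μ.re - μ.re ≤ nn H (Q * D) * nn H G := by
    rw [← e2, ← hSG, ← mul_assoc, ← nna G]
    exact nnm _ _
  have hm0 : 0 ≤ μ.re := hm ▸ nn0 Q
  have hm1 : μ.re ≠ 0 := by
    intro h
    have h1 := nnz Q (hm.trans h)
    rw [h1, trace_zero] at htr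
    exact zero_ne_one htr
  have hm2 : 0 ≤ μ.re * μ.re - μ.re := e1 ▸ nn0 _
  have hm3 : 0 < μ.re := lt_of_le_of_ne hm0 (Ne.symm hm1)
  refine ⟨?_, ?_, ?_⟩
  · rw [hm]
    by_contra h
    push Not at h
    nlinarith
  · have h1 : adj H (1 - Q) * (1 - Q) = 1 - S - Q + S * Q := by
      rw [M2_adj_sub, M2_adj_one hH, ← hS]
      noncomm_ring
    have h2 : trace (1 : Matrix (Fin 3) (Fin 3) ℂ) = 3 := by
      rw [trace_one]
      simp
    rw [hm, M2_nn, h1, trace_add, trace_sub, trace_sub, h2, htr, htrS, ← hμ]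
    simp only [Complex.add_re, Complex.sub_re, Complex.one_re]
    have h3 : (3 : ℂ).re = 3 := rfl
    rw [h3]
    ring
  · rw [hm, hDB, e3]
    nlinarith

end Pool.Agent.DL
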